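import Pool.Agent.Lib.MP_267da7_pr.Paths
import Pool.Agent.Lib.MP_267da7_pr.Z2

/-!
# MP_267da7_pr, Q1: the end point of point-to-line exponential last passage percolation is log-concave

Full answer (yes): for every `n >= 1` and every rate `r > 0`.
-/

open MeasureTheory LPPEnd

/-- For i.i.d. exponential weights of rate `r > 0` on `N+ x N+` and every `n >= 1`: almost surely exactly one point `(k, 2n-k)` is the end point of a
maximising up-right path from `(1,1)` to the line `x + y = 2n`; the probabilities `p(k)` of these end points are positive for `1 <= k <= 2n-1`, sum to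
one, and are log-concave: `p(k-1) p(k+1) <= p(k)^2` for `2 <= k <= 2n-2`. -/
theorem Pool.Agent.Results.MP_267da7_pr.EndpointLogConcave.result
    {Ω : Type*} [MeasurableSpace Ω] (P : Measure Ω) [IsProbabilityMeasure P]
    (W : ℕ+ × ℕ+ → Ω → ℝ) (hm : ∀ z, Measurable (W z)) (hind : ProbabilityTheory.iIndepFun W P)
    (r : ℝ) (hr : 0 < r) (hlaw : ∀ z, P.map (W z) = ProbabilityTheory.expMeasure r)
    (n : ℕ) (hn : 1 ≤ n) :
    (∀ᵐ ω ∂P, ∃! k, EndsAt n k (fun z => W z ω)) ∧
    (∀ k, 1 ≤ k → k ≤ 2 * n - 1 → 0 < P.real {ω | EndsAt n k (fun z => W z ω)}) ∧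
    (∑ k ∈ Finset.Icc 1 (2 * n - 1), P.real {ω | EndsAt n k (fun z => W z ω)} = 1) ∧
    (∀ k, 2 ≤ k → k ≤ 2 * n - 2 →
      P.real {ω | EndsAt n (k - 1) (fun z => W z ω)} *
        P.real {ω | EndsAt n (k + 1) (fun z => W z ω)} ≤
      P.real {ω | EndsAt n k (fun z => W z ω)} ^ 2) :=
  endpoint_main P W hm hind r hr hlaw n hn
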